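import Mathlib

/-!
# Reduced Stein spaces and locally Stein algebras
-/

set_option autoImplicit false

open Topology Filter Set

namespace Pool.Agent.Q193.LS

/-- `c : W → D` is a chart of the ringed space given by the germs `O`: `c` is a homeomorphism of
the open set `W` onto a (closed) analytic subset of the open set `D` of `ℂⁿ`, and the holomorphic
germs at the points of `W` are the germs of the functions `G ∘ c` with `G` holomorphic near the
image point. -/
structure IsChart {X : Type} [TopologicalSpace X] (O : X → (X → ℂ) → Prop) (W : Set X) (n : ℕ)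
    (c : X → (Fin n → ℂ)) (D : Set (Fin n → ℂ)) : Prop where
  openW : IsOpen W
  openD : IsOpen D
  embed : IsEmbedding (W.domRestrict c)
  sub : c '' W ⊆ D
  analytic : ∀ z ∈ D, ∃ N ∈ 𝓝 z, ∃ (k : ℕ) (g : Fin k → (Fin n → ℂ) → ℂ),
    (∀ i, AnalyticOnNhd ℂ (g i) N) ∧ ∀ w ∈ N, w ∈ c '' W ↔ ∀ i, g i w = 0
  hol : ∀ y ∈ W, ∀ f : X → ℂ, O y f ↔
    ∃ G : (Fin n → ℂ) → ℂ, AnalyticAt ℂ G (c y) ∧ f =ᶠ[𝓝 y] fun x => G (c x)

/-- `O x f` says that `f` is holomorphic near `x`. The space is a reduced complex space if it is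
Hausdorff, second countable and covered by charts. -/
structure IsComplexSpace (X : Type) [TopologicalSpace X] (O : X → (X → ℂ) → Prop) : Prop where
  t2 : T2Space X
  countable : SecondCountableTopology X
  charts : ∀ x : X, ∃ (W : Set X) (n : ℕ) (c : X → (Fin n → ℂ)) (D : Set (Fin n → ℂ)),
    x ∈ W ∧ IsChart O W n c D

/-- the global holomorphic functions -/
def Hol {X : Type} (O : X → (X → ℂ) → Prop) : Set (X → ℂ) := {f | ∀ x, O x f}

/-- Reduced Stein spaces: reduced complex spaces which are holomorphically separable and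
holomorphically convex. -/
structure IsStein (X : Type) [TopologicalSpace X] (O : X → (X → ℂ) → Prop) : Prop where
  space : IsComplexSpace X O
  separable : ∀ x y : X, x ≠ y → ∃ f ∈ Hol O, f x ≠ f y
  convex : ∀ K : Set X, IsCompact K →
    IsCompact {x : X | ∀ f ∈ Hol O, ∀ M : ℝ, (∀ k ∈ K, ‖f k‖ ≤ M) → ‖f x‖ ≤ M}

/-- Commutative Fréchet algebras: the topology is Hausdorff, complete and given by an increasing
sequence of submultiplicative seminorms. -/
def IsFrechet (A : Type) [CommRing A] [Algebra ℂ A] [TopologicalSpace A] : Prop :=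
  Nontrivial A ∧ T2Space A ∧ ∃ p : ℕ → Seminorm ℂ A, Monotone p ∧
    (∀ m a b, p m (a * b) ≤ p m a * p m b) ∧ WithSeminorms p ∧
    ∀ u : ℕ → A, (∀ m, ∀ ε > 0, ∃ N, ∀ i ≥ N, ∀ j ≥ N, p m (u i - u j) < ε) →
      ∃ a, Tendsto u atTop (𝓝 a)

/-- Locally Stein algebras: a non-empty open set `Y` of the spectrum (the space of non-zero
continuous characters with the Gelfand topology) is a reduced Stein space, on which the Gelfand
transforms are holomorphic and dense in the holomorphic functions in the compact-open topology. -/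
def IsLocallyStein (A : Type) [CommRing A] [Algebra ℂ A] [TopologicalSpace A] : Prop :=
  IsFrechet A ∧ ∃ Y : Set (WeakDual.characterSpace ℂ A), IsOpen Y ∧ Y.Nonempty ∧
    ∃ O : Y → (Y → ℂ) → Prop, IsStein Y O ∧ (∀ a : A, (fun y : Y => y.1 a) ∈ Hol O) ∧
      ∀ g ∈ Hol O, ∀ K : Set Y, IsCompact K → ∀ ε > 0, ∃ a : A, ∀ y ∈ K, ‖g y - y.1 a‖ < ε

end Pool.Agent.Q193.LS
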