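import Pool.Agent.Q193.LS.Def

/-!
# Algebras of all continuous functions are not locally Stein
-/

set_option autoImplicit false

open Topology Filter Set

namespace Pool.Agent.Q193.LS

theorem neg_core {M : Type} [TopologicalSpace M] [CompactSpace M] [T2Space M]
    (hni : ∀ y : M, (𝓝[≠] y).NeBot) (Y : Set M) (hY : IsOpen Y) (hne : Y.Nonempty)
    (O : Y → (Y → ℂ) → Prop) (hC : IsComplexSpace Y O)
    (hall : ∀ F : C(M, ℝ), (fun y : Y => ((F y : ℝ) : ℂ)) ∈ Hol O) : False := by
  obtain ⟨y0, hy0⟩ := hne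
  let y : Y := ⟨y0, hy0⟩
  obtain ⟨W, n, c, D, hyW, hch⟩ := hC.charts y
  have hcont : ContinuousOn c W := by
    rw [continuousOn_iff_continuous_domRestrict]
    exact hch.embed.continuous
  have hcy : ContinuousAt c y := hcont.continuousAt (hch.openW.mem_nhds hyW)
  have hinj : ∀ z ∈ W, c z = c y → z = y := by
    intro z hz h
    have := hch.embed.injective (a₁ := ⟨z, hz⟩) (a₂ := ⟨y, hyW⟩) h
    exact congrArg Subtype.val this
  have : LocallyCompactSpace Y := hY.locallyCompactSpace
  obtain ⟨K, hK, hyK, hKW⟩ := exists_compact_subset hch.openW hyW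
  let K' : Set M := Subtype.val '' K
  have hK' : IsClosed K' := (hK.image continuous_subtype_val).isClosed
  have hsub : ∀ z : K', (z : M) ∈ Y := by
    rintro ⟨_, w, hw, rfl⟩
    exact w.2
  have hg : ContinuousOn (fun z : Y => Real.sqrt ‖c z - c y‖) K :=
    ((hcont.mono hKW).sub continuousOn_const).norm.sqrt
  have hcl : Continuous fun z : K' => (⟨z.1, hsub z⟩ : Y) :=
    Continuous.subtype_mk continuous_subtype_val _
  have hf : Continuous fun z : K' => Real.sqrt ‖c ⟨z.1, hsub z⟩ - c y‖ := by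
    refine hg.comp_continuous hcl ?_
    rintro ⟨_, w, hw, rfl⟩
    exact hw
  obtain ⟨F, hF⟩ := ContinuousMap.exists_restrict_eq hK' (⟨_, hf⟩ : C(K', ℝ))
  have hFK : ∀ z ∈ K, F z.1 = Real.sqrt ‖c z - c y‖ := by
    intro z hz
    exact congrArg (fun k : C(K', ℝ) => k ⟨z.1, z, hz, rfl⟩) hF
  obtain ⟨G, hG, hev⟩ := (hch.hol y hyW _).mp (hall F y)
  have hO := hG.differentiableAt.isBigO_sub
  obtain ⟨C, hC0, hCb⟩ := hO.exists_pos
  have hCb' := hcy.eventually hCb.bound
  have hFy : F y0 = 0 := by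
    have := hFK y (interior_subset hyK)
    simpa using this
  have hGy : G (c y) = 0 := by
    have := hev.self_of_nhds
    refine this.symm.trans ?_
    change ((F y0 : ℝ) : ℂ) = 0
    rw [hFy]; rfl
  have hnb : (𝓝[≠] y).NeBot := by
    rw [neBot_iff]
    intro h
    have h1 : IsOpen ({y} : Set Y) := (isOpen_singleton_iff_punctured_nhds _).mpr h
    have h2 : IsOpen ({y0} : Set M) := by
      have h3 := hY.isOpenMap_subtype_val _ h1
      rwa [image_singleton] at h3
    exact (hni y0).ne ((isOpen_singleton_iff_punctured_nhds _).mp h2)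
  have hlim : Tendsto (fun z => C * Real.sqrt ‖c z - c y‖) (𝓝[≠] y) (𝓝 (C * Real.sqrt ‖c y - c y‖)) := by
    apply Tendsto.mono_left _ nhdsWithin_le_nhds
    exact ((hcy.sub continuousAt_const).norm.sqrt).const_mul C |>.tendsto
  rw [sub_self, norm_zero, Real.sqrt_zero, mul_zero] at hlim
  have hge : ∀ᶠ z in 𝓝[≠] y, (1 : ℝ) ≤ C * Real.sqrt ‖c z - c y‖ := by
    have e1 : ∀ᶠ z in 𝓝[≠] y, z ∈ K :=
      nhdsWithin_le_nhds (mem_interior_iff_mem_nhds.mp hyK)
    have e2 : ∀ᶠ z in 𝓝[≠] y, ((F z.1 : ℝ) : ℂ) = G (c z) := nhdsWithin_le_nhds hev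
    have e3 : ∀ᶠ z in 𝓝[≠] y, ‖G (c z) - G (c y)‖ ≤ C * ‖c z - c y‖ := nhdsWithin_le_nhds hCb'
    have e4 : ∀ᶠ z in 𝓝[≠] y, z ≠ y := self_mem_nhdsWithin
    filter_upwards [e1, e2, e3, e4] with z h1 h2 h3 h4
    rw [hGy, sub_zero, ← h2, hFK z h1, Complex.norm_real, Real.norm_of_nonneg
      (Real.sqrt_nonneg _)] at h3
    have hpos : 0 < Real.sqrt ‖c z - c y‖ := by
      apply Real.sqrt_pos.mpr
      rw [norm_pos_iff, sub_ne_zero]
      intro h
      exact h4 (hinj z (hKW h1) h)
    have h5 : ‖c z - c y‖ = Real.sqrt ‖c z - c y‖ * Real.sqrt ‖c z - c y‖ :=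
      (Real.mul_self_sqrt (norm_nonneg _)).symm
    rw [h5, ← mul_assoc] at h3
    have h6 : Real.sqrt (Real.sqrt ‖c z - c y‖ * Real.sqrt ‖c z - c y‖) = Real.sqrt ‖c z - c y‖ := by
      rw [← h5]
    rw [h6] at h3
    by_contra hlt
    push Not at hlt
    nlinarith
  have := ge_of_tendsto hlim hge
  norm_num at this

section iso

variable {B : Type} [CommRing B] [Algebra ℂ B] [TopologicalSpace B]
  {X : Type} [TopologicalSpace X] [CompactSpace X] [T2Space X]
  (E : C(X, ℂ) ≃ₐ[ℂ] B) (h1 : Continuous E) (h2 : Continuous E.symm)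

/-- evaluation at a point -/
noncomputable def ev (t : X) : WeakDual.characterSpace ℂ B :=
  ⟨((⟨(ContinuousMap.evalAlgHom ℂ ℂ t).toLinearMap ∘ₗ E.symm.toLinearMap,
    (ContinuousEvalConst.continuous_eval_const t).comp h2⟩ : B →L[ℂ] ℂ) : WeakDual ℂ B), by
    constructor
    · intro h
      have h3 := congrArg (fun T : B →L[ℂ] ℂ => T (E 1)) h
      change (E.symm (E 1)) t = (0 : ℂ) at h3
      rw [AlgEquiv.symm_apply_apply] at h3
      exact one_ne_zero h3
    · intro x y
      change (E.symm (x * y)) t = E.symm x t * E.symm y t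
      rw [map_mul]
      rfl⟩

lemma ev_apply (t : X) (b : B) : ev E h2 t b = E.symm b t := rfl

lemma ev_continuous : Continuous (ev E h2) := by
  apply Continuous.subtype_mk
  apply WeakDual.continuous_of_continuous_eval
  intro b
  exact (E.symm b).continuous

include h1 in
lemma ev_surjective : Function.Surjective (ev E h2) := by
  intro χ
  let ψ : WeakDual.characterSpace ℂ C(X, ℂ) :=
    ⟨((⟨χ.1.toLinearMap ∘ₗ E.toLinearMap, χ.1.continuous.comp h1⟩ : C(X, ℂ) →L[ℂ] ℂ) :
      WeakDual ℂ C(X, ℂ)), by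
      constructor
      · intro h
        apply χ.2.1
        apply ContinuousLinearMap.ext
        intro b
        have h3 := congrArg (fun T : C(X, ℂ) →L[ℂ] ℂ => T (E.symm b)) h
        change χ.1 (E (E.symm b)) = (0 : ℂ) at h3
        rw [AlgEquiv.apply_symm_apply] at h3
        exact h3
      · intro x y
        change χ.1 (E (x * y)) = χ.1 (E x) * χ.1 (E y)
        rw [map_mul]
        exact χ.2.2 _ _⟩
  obtain ⟨t, ht⟩ := (WeakDual.CharacterSpace.continuousMapEval_bijective (𝕜 := ℂ) (X := X)).2 ψ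
  refine ⟨t, ?_⟩
  apply WeakDual.CharacterSpace.ext
  intro b
  rw [ev_apply]
  have h3 : WeakDual.CharacterSpace.continuousMapEval X ℂ t (E.symm b) = ψ (E.symm b) := by rw [ht]
  rw [WeakDual.CharacterSpace.continuousMapEval_apply_apply] at h3
  rw [h3]
  change χ.1 (E (E.symm b)) = χ.1 b
  rw [AlgEquiv.apply_symm_apply]

include h1 h2 in
/-- an algebra topologically isomorphic to the continuous functions on a compact Hausdorff space
that is connected with more than one point is not locally Stein -/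
theorem not_locallyStein [ConnectedSpace X] [Nontrivial X] : ¬ IsLocallyStein B := by
  rintro ⟨-, Y, hY, hne, O, hS, hall, -⟩
  have hinj : Function.Injective (ev E h2) := by
    intro s t hst
    by_contra hne
    obtain ⟨f, hf⟩ : ∃ f : C(X, ℂ), f s ≠ f t := by
      have := (WeakDual.CharacterSpace.continuousMapEval_bijective (𝕜 := ℂ) (X := X)).1
      by_contra hcon
      push Not at hcon
      apply hne
      apply this
      apply WeakDual.CharacterSpace.ext
      intro f
      rw [WeakDual.CharacterSpace.continuousMapEval_apply_apply,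
        WeakDual.CharacterSpace.continuousMapEval_apply_apply]
      exact hcon f
    apply hf
    have h3 : ev E h2 s (E f) = ev E h2 t (E f) := by rw [hst]
    rw [ev_apply, ev_apply, AlgEquiv.symm_apply_apply] at h3
    exact h3
  let e : X ≃ₜ WeakDual.characterSpace ℂ B :=
    (ev_continuous E h2).homeoOfEquivCompactToT2
      (f := Equiv.ofBijective _ ⟨hinj, ev_surjective E h1 h2⟩)
  have : CompactSpace (WeakDual.characterSpace ℂ B) := e.compactSpace
  have : ConnectedSpace (WeakDual.characterSpace ℂ B) := e.surjective.connectedSpace e.continuous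
  have : Nontrivial (WeakDual.characterSpace ℂ B) := e.injective.nontrivial
  refine neg_core (fun y => inferInstance) Y hY hne O hS.space fun F => ?_
  have h := hall (E ⟨fun t => ((F (e t) : ℝ) : ℂ), by fun_prop⟩)
  convert h using 2
  rename_i z
  obtain ⟨t, ht⟩ := e.surjective z.1
  rw [← ht]
  change _ = E.symm (E _) t
  rw [AlgEquiv.symm_apply_apply]
  rfl

end iso

end Pool.Agent.Q193.LS
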