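import Pool.Agent.Q193.LS.Def

/-!
# The product of the disc algebra and `C[0,1]` is locally Stein
-/

set_option autoImplicit false

open Topology Filter Set Polynomial

namespace Pool.Agent.Q193.LS

theorem isFrechet_of_normed (A : Type) [NormedCommRing A] [NormedAlgebra ℂ A] [CompleteSpace A]
    [Nontrivial A] : IsFrechet A := by
  refine ⟨inferInstance, inferInstance, fun _ => normSeminorm ℂ A, fun _ _ _ => le_rfl,
    fun _ a b => norm_mul_le a b, ?_, fun u hu => ?_⟩
  · rw [SeminormFamily.withSeminorms_iff_topologicalSpace_eq_iInf]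
    have h := (SeminormFamily.withSeminorms_iff_topologicalSpace_eq_iInf
      (fun _ : Fin 1 => normSeminorm ℂ A)).mp (norm_withSeminorms ℂ A)
    rw [ciInf_const] at h ⊢
    exact h
  · apply cauchySeq_tendsto_of_complete
    rw [Metric.cauchySeq_iff]
    intro ε hε
    obtain ⟨N, hN⟩ := hu 0 ε hε
    refine ⟨N, fun i hi j hj => ?_⟩
    rw [dist_eq_norm]
    exact hN i hi j hj

/-- the closed unit disc -/
abbrev KD : Set ℂ := Metric.closedBall (0 : ℂ) 1

instance : CompactSpace KD := isCompact_iff_compactSpace.mp (isCompact_closedBall 0 1)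

/-- the disc algebra: the closure of the polynomials in the continuous functions on the closed
unit disc -/
noncomputable abbrev DA : Subalgebra ℂ C(KD, ℂ) := (polynomialFunctions KD).topologicalClosure

/-- the product of the disc algebra with `C[0,1]` -/
abbrev AA : Type := DA × C(unitInterval, ℂ)

instance : CompleteSpace DA :=
  (Subalgebra.isClosed_topologicalClosure (polynomialFunctions KD)).completeSpace_coe

theorem frechet_AA : IsFrechet AA := isFrechet_of_normed AA

/-- polynomials in the disc algebra -/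
noncomputable def toDA : ℂ[X] →ₐ[ℂ] DA :=
  (Polynomial.toContinuousMapOnAlgHom KD).codRestrict DA fun p =>
    Subalgebra.le_topologicalClosure _ ⟨p, trivial, rfl⟩

lemma toDA_apply (p : ℂ[X]) (z : KD) : (toDA p).1 z = p.eval z.1 := rfl

lemma approx (f : DA) : ∃ p : ℕ → ℂ[X], Tendsto (fun n => toDA (p n)) atTop (𝓝 f) := by
  have h : (f : C(KD, ℂ)) ∈ closure (polynomialFunctions KD : Set C(KD, ℂ)) := f.2
  rw [mem_closure_iff_seq_limit] at h
  obtain ⟨x, hx, hlim⟩ := h
  choose p hp using hx
  refine ⟨p, ?_⟩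
  rw [tendsto_subtype_rng]
  refine hlim.congr fun n => ?_
  exact (hp n).2.symm

/-- the coordinate -/
noncomputable def ZZ : AA := (toDA X, 0)

/-- the idempotent -/
noncomputable def EE : AA := (1, 0)

abbrev CS : Type := WeakDual.characterSpace ℂ AA

/-- the open subset of the spectrum -/
def YY : Set CS := {φ | ‖φ ZZ‖ < 1 ∧ ‖φ EE - 1‖ < 1 / 2}

lemma eval_cont (a : AA) : Continuous fun φ : CS => φ a :=
  (WeakDual.eval_continuous a).comp continuous_subtype_val

lemma open_YY : IsOpen YY :=
  (isOpen_lt (eval_cont ZZ).norm continuous_const).inter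
    (isOpen_lt ((eval_cont EE).sub continuous_const).norm continuous_const)

/-- evaluation at a point of the closed disc -/
noncomputable def pt (z : KD) : CS :=
  ⟨((⟨(ContinuousMap.evalAlgHom ℂ ℂ z).toLinearMap ∘ₗ DA.val.toLinearMap ∘ₗ
    (LinearMap.fst ℂ DA C(unitInterval, ℂ)),
    (ContinuousEvalConst.continuous_eval_const z).comp
      (continuous_subtype_val.comp continuous_fst)⟩ : AA →L[ℂ] ℂ) : WeakDual ℂ AA), by
    constructor
    · intro h
      have h3 := congrArg (fun T : AA →L[ℂ] ℂ => T 1) h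
      change (1 : ℂ) = (0 : ℂ) at h3
      exact one_ne_zero h3
    · intro x y
      rfl⟩

lemma pt_apply (z : KD) (a : AA) : pt z a = a.1.1 z := rfl

lemma pt_cont : Continuous pt := by
  apply Continuous.subtype_mk
  apply WeakDual.continuous_of_continuous_eval
  intro a
  exact a.1.1.continuous

lemma pt_ZZ (z : KD) : pt z ZZ = z.1 := by
  rw [pt_apply, ZZ, toDA_apply, eval_X]

lemma pt_EE (z : KD) : pt z EE = 1 := rfl

lemma EE_eq {φ : CS} (h : φ ∈ YY) : φ EE = 1 := by
  have h1 : φ EE * φ EE = φ EE := by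
    rw [← map_mul]
    congr 1
    exact Prod.ext (mul_one _) (mul_zero _)
  have h2 : φ EE * (φ EE - 1) = 0 := by rw [mul_sub, h1, mul_one, sub_self]
  rcases mul_eq_zero.mp h2 with h3 | h3
  · have := h.2
    rw [h3, zero_sub, norm_neg, norm_one] at this
    norm_num at this
  · exact sub_eq_zero.mp h3

/-- the restriction of a character in `YY` to the disc algebra -/
noncomputable def res (φ : CS) (h : φ ∈ YY) : DA →ₐ[ℂ] ℂ where
  toFun f := φ (f, 0)
  map_one' := EE_eq h
  map_mul' f g := by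
    rw [← map_mul]
    congr 1
    exact Prod.ext rfl (mul_zero _).symm
  map_zero' := by
    have : ((0, 0) : AA) = 0 := rfl
    rw [this, map_zero]
  map_add' f g := by
    rw [← map_add]
    congr 1
    exact Prod.ext rfl (add_zero _).symm
  commutes' c := by
    have : ((algebraMap ℂ DA c, 0) : AA) = c • EE :=
      Prod.ext (Algebra.algebraMap_eq_smul_one c) 
        (by ext t; simp [EE])
    rw [this, map_smul, EE_eq h]
    simp

lemma eq_pt {φ : CS} (h : φ ∈ YY) : φ = pt ⟨φ ZZ, by simpa using h.1.le⟩ := by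
  apply WeakDual.CharacterSpace.ext
  rintro ⟨f, g⟩
  have e1 : φ (f, g) = φ (f, 0) := by
    have : ((f, 0) : AA) = (f, g) * EE := Prod.ext (mul_one _).symm (mul_zero _).symm
    rw [this, map_mul, EE_eq h, mul_one]
  rw [e1, pt_apply]
  obtain ⟨p, hp⟩ := approx f
  have hpoly : ∀ q : ℂ[X], φ (toDA q, 0) = (toDA q).1 ⟨φ ZZ, by simpa using h.1.le⟩ := by
    intro q
    rw [toDA_apply]
    have : ((res φ h).comp toDA) = Polynomial.aeval (φ ZZ) := by
      apply Polynomial.algHom_ext
      rw [Polynomial.aeval_X]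
      rfl
    have h2 := congrArg (fun T : ℂ[X] →ₐ[ℂ] ℂ => T q) this
    simp only [Polynomial.coe_aeval_eq_eval] at h2
    exact h2
  have hc1 : Continuous fun f : DA => φ (f, 0) := by
    have h0 : Continuous fun a : AA => φ a := φ.1.continuous
    exact h0.comp (continuous_id.prodMk continuous_const)
  have hc2 : Continuous fun f : DA => f.1 ⟨φ ZZ, by simpa using h.1.le⟩ :=
    (ContinuousEvalConst.continuous_eval_const _).comp continuous_subtype_val
  have l1 := (hc1.tendsto f).comp hp
  have l2 := (hc2.tendsto f).comp hp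
  refine tendsto_nhds_unique (l1.congr fun n => ?_) l2
  exact hpoly (p n)

/-- the coordinate on `YY` -/
noncomputable def LL (y : YY) : ℂ := y.1 ZZ

lemma LL_lt (y : YY) : ‖LL y‖ < 1 := y.2.1

lemma LL_cont : Continuous LL := (eval_cont ZZ).comp continuous_subtype_val

/-- the point of `YY` with given coordinate -/
noncomputable def RR (z : ℂ) (hz : ‖z‖ < 1) : YY :=
  ⟨pt ⟨z, by simpa using hz.le⟩, by
    constructor
    · rw [pt_ZZ]; exact hz
    · rw [pt_EE]; norm_num⟩

lemma LL_RR (z : ℂ) (hz : ‖z‖ < 1) : LL (RR z hz) = z := pt_ZZ _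

lemma RR_LL (y : YY) : RR (LL y) (LL_lt y) = y := Subtype.ext (eq_pt y.2).symm

/-- `YY` is homeomorphic to the open disc -/
noncomputable def hom : YY ≃ₜ Metric.ball (0 : ℂ) 1 where
  toFun y := ⟨LL y, mem_ball_zero_iff.mpr (LL_lt y)⟩
  invFun z := RR z.1 (mem_ball_zero_iff.mp z.2)
  left_inv y := RR_LL y
  right_inv z := Subtype.ext (LL_RR _ _)
  continuous_toFun := Continuous.subtype_mk LL_cont fun y => mem_ball_zero_iff.mpr (LL_lt y)
  continuous_invFun := by
    apply Continuous.subtype_mk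
    exact pt_cont.comp (Continuous.subtype_mk continuous_subtype_val _)

/-- the chart -/
noncomputable def cc (y : YY) : Fin 1 → ℂ := fun _ => LL y

lemma cc_embed : IsEmbedding cc := by
  have h1 : IsEmbedding (fun z : Metric.ball (0 : ℂ) 1 => (fun _ => z.1 : Fin 1 → ℂ)) := by
    have h2 : IsEmbedding (fun z : ℂ => (fun _ => z : Fin 1 → ℂ)) :=
      (Homeomorph.funUnique (Fin 1) ℂ).symm.isEmbedding
    exact h2.comp IsEmbedding.subtypeVal
  exact h1.comp hom.isEmbedding

lemma cc_cont : Continuous cc := cc_embed.continuous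

/-- the structure of a complex space -/
def OO (y : YY) (f : YY → ℂ) : Prop :=
  ∃ G : (Fin 1 → ℂ) → ℂ, AnalyticAt ℂ G (cc y) ∧ f =ᶠ[𝓝 y] fun x => G (cc x)

lemma OO_cont {f : YY → ℂ} (hf : f ∈ Hol OO) : Continuous f := by
  rw [continuous_iff_continuousAt]
  intro y
  obtain ⟨G, hG, hev⟩ := hf y
  have h1 : ContinuousAt (fun x => G (cc x)) y :=
    ContinuousAt.comp (f := cc) (g := G) hG.continuousAt cc_cont.continuousAt
  exact h1.congr hev.symm

/-- functions of the coordinate -/
lemma OO_of {F : ℂ → ℂ} (hF : DifferentiableOn ℂ F (Metric.ball 0 1)) :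
    (fun y => F (LL y)) ∈ Hol OO := by
  intro y
  refine ⟨fun w => F (w 0), ?_, Eventually.of_forall fun x => rfl⟩
  have h1 : AnalyticAt ℂ F (LL y) :=
    hF.analyticAt (Metric.isOpen_ball.mem_nhds (by simpa using LL_lt y))
  have h2 : AnalyticAt ℂ (fun w : Fin 1 → ℂ => w 0) (cc y) :=
    (ContinuousLinearMap.proj (R := ℂ) (φ := fun _ : Fin 1 => ℂ) 0).analyticAt _
  exact h1.comp_of_eq h2 rfl

lemma chart_YY : IsChart OO univ 1 cc {w | ‖w 0‖ < 1} where
  openW := isOpen_univ
  openD := isOpen_lt (continuous_apply 0).norm continuous_const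
  embed := cc_embed.comp (Homeomorph.Set.univ YY).isEmbedding
  sub := by
    rintro _ ⟨y, -, rfl⟩
    exact LL_lt y
  analytic := by
    intro z hz
    refine ⟨{w | ‖w 0‖ < 1}, (isOpen_lt (continuous_apply 0).norm continuous_const).mem_nhds hz,
      0, fun i => i.elim0, fun i => i.elim0, fun w hw => ⟨fun _ i => i.elim0, fun _ => ?_⟩⟩
    refine ⟨RR (w 0) hw, mem_univ _, ?_⟩
    funext i
    rw [Subsingleton.elim i 0]
    exact LL_RR _ _
  hol := fun y _ f => Iff.rfl

lemma space_YY : IsComplexSpace YY OO where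
  t2 := inferInstance
  countable := cc_embed.secondCountableTopology
  charts _ := ⟨univ, 1, cc, _, mem_univ _, chart_YY⟩

lemma radius {K : Set YY} (hK : IsCompact K) : ∃ r : ℝ, 0 ≤ r ∧ r < 1 ∧ ∀ k ∈ K, ‖LL k‖ ≤ r := by
  rcases K.eq_empty_or_nonempty with rfl | hne
  · exact ⟨0, le_rfl, by norm_num, by simp⟩
  · obtain ⟨k, hk, hmax⟩ := hK.exists_isMaxOn hne (LL_cont.norm.continuousOn)
    exact ⟨‖LL k‖, norm_nonneg _, LL_lt k, fun x hx => hmax hx⟩

lemma stein_YY : IsStein YY OO where
  space := space_YY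
  separable x y hxy := by
    refine ⟨fun y => LL y, OO_of (F := fun z => z) differentiableOn_id, fun h => hxy ?_⟩
    rw [← RR_LL x, ← RR_LL y]
    congr 1
  convex K hK := by
    obtain ⟨r, hr0, hr1, hr⟩ := radius hK
    have hc : IsCompact {x : YY | ‖LL x‖ ≤ r} := by
      have : {x : YY | ‖LL x‖ ≤ r} = hom.symm '' {z | ‖z.1‖ ≤ r} := by
        ext x
        constructor
        · intro hx
          exact ⟨hom x, hx, hom.symm_apply_apply x⟩
        · rintro ⟨z, hz, rfl⟩
          change ‖LL (RR z.1 (mem_ball_zero_iff.mp z.2))‖ ≤ r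
          rw [LL_RR]
          exact hz
      rw [this]
      apply IsCompact.image _ hom.symm.continuous
      rw [Subtype.isCompact_iff]
      have : Subtype.val '' {z : Metric.ball (0 : ℂ) 1 | ‖z.1‖ ≤ r} = Metric.closedBall 0 r := by
        ext z
        simp only [mem_image, mem_ofPred_eq, Subtype.exists, Metric.mem_ball, dist_zero_right,
          exists_and_left, exists_prop, exists_eq_right_right, Metric.mem_closedBall]
        constructor
        · rintro ⟨h1, h2⟩; exact h1
        · intro h; exact ⟨h, h.trans_lt hr1⟩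
      rw [this]
      exact isCompact_closedBall 0 r
    refine hc.of_isClosed_subset ?_ ?_
    · have : {x : YY | ∀ f ∈ Hol OO, ∀ M : ℝ, (∀ k ∈ K, ‖f k‖ ≤ M) → ‖f x‖ ≤ M} =
        ⋂ f ∈ Hol OO, ⋂ M : ℝ, ⋂ _ : (∀ k ∈ K, ‖f k‖ ≤ M), {x | ‖f x‖ ≤ M} := by
        ext x; simp
      rw [this]
      refine isClosed_biInter fun f hf => isClosed_iInter fun M => isClosed_iInter fun _ => ?_
      exact isClosed_le (OO_cont hf).norm continuous_const
    · intro x hx
      exact hx (fun y => LL y) (OO_of (F := fun z => z) differentiableOn_id) r hr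

lemma gelfand_hol (a : AA) : (fun y : YY => y.1 a) ∈ Hol OO := by
  classical
  let F : ℂ → ℂ := fun z => if h : z ∈ KD then a.1.1 ⟨z, h⟩ else 0
  have hF : DifferentiableOn ℂ F (Metric.ball 0 1) := by
    obtain ⟨p, hp⟩ := approx a.1
    have hu : TendstoUniformlyOn (fun n z => (p n).eval z) F atTop (Metric.ball 0 1) := by
      rw [Metric.tendstoUniformlyOn_iff]
      intro ε hε
      have h1 := (tendsto_iff_dist_tendsto_zero.mp hp).eventually (gt_mem_nhds hε)
      filter_upwards [h1] with n hn z hz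
      have hz' : z ∈ KD := Metric.ball_subset_closedBall hz
      have h2 : F z = a.1.1 ⟨z, hz'⟩ := dif_pos hz'
      rw [h2, dist_comm]
      refine lt_of_le_of_lt ?_ hn
      have h3 := ContinuousMap.dist_apply_le_dist (f := (toDA (p n)).1) (g := a.1.1) ⟨z, hz'⟩
      exact h3
    exact hu.tendstoLocallyUniformlyOn.differentiableOn
      (Eventually.of_forall fun n => (p n).differentiable.differentiableOn) Metric.isOpen_ball
  have h := OO_of hF
  convert h using 2 with y
  have hy : LL y ∈ KD := by simpa using (LL_lt y).le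
  have h2 : F (LL y) = a.1.1 ⟨LL y, hy⟩ := dif_pos hy
  rw [h2]
  conv_lhs => rw [eq_pt y.2]
  rfl

lemma dense_hol (g : YY → ℂ) (hg : g ∈ Hol OO) (K : Set YY) (hK : IsCompact K) (ε : ℝ)
    (hε : 0 < ε) : ∃ a : AA, ∀ y ∈ K, ‖g y - y.1 a‖ < ε := by
  obtain ⟨r, hr0, hr1, hr⟩ := radius hK
  let g0 : ℂ → ℂ := fun z => if h : ‖z‖ < 1 then g (RR z h) else 0
  have hg0 : ∀ y, g0 (LL y) = g y := by
    intro y
    have : g0 (LL y) = g (RR (LL y) (LL_lt y)) := dif_pos (LL_lt y)
    rw [this, RR_LL]
  have hd : DifferentiableOn ℂ g0 (Metric.ball 0 1) := by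
    intro z hz
    have hz' : ‖z‖ < 1 := by simpa using hz
    obtain ⟨G, hG, hev⟩ := hg (RR z hz')
    have hRz : cc (RR z hz') = fun _ => z := by
      funext i
      exact LL_RR _ _
    have h1 : DifferentiableAt ℂ (fun w : ℂ => G (fun _ => w)) z := by
      have h2 : DifferentiableAt ℂ G (fun _ => z) := by rw [← hRz]; exact hG.differentiableAt
      have h3 : DifferentiableAt ℂ (fun w : ℂ => (fun _ => w : Fin 1 → ℂ)) z :=
        differentiableAt_pi.mpr fun _ => differentiableAt_id
      exact DifferentiableAt.comp z h2 h3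
    have h4 : g0 =ᶠ[𝓝 z] fun w : ℂ => G (fun _ => w) := by
      have h5 : Tendsto (fun w : Metric.ball (0 : ℂ) 1 => hom.symm w) (𝓝 ⟨z, hz⟩)
          (𝓝 (RR z hz')) := hom.symm.continuous.tendsto _
      have h6 := h5.eventually hev
      rw [nhds_subtype_eq_comap, eventually_comap] at h6
      filter_upwards [h6, Metric.isOpen_ball.mem_nhds hz] with w hw hwb
      have h7 := hw ⟨w, hwb⟩ rfl
      have hw' : ‖w‖ < 1 := by simpa using hwb
      have h8 : g0 w = g (RR w hw') := dif_pos hw'
      rw [h8]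
      refine Eq.trans h7 ?_
      congr 1
      funext i
      exact LL_RR w hw'
    exact (h1.congr_of_eventuallyEq h4).differentiableWithinAt
  obtain ⟨s, hrs, hs1⟩ := exists_between hr1
  obtain ⟨t, hst, ht1⟩ := exists_between hs1
  have hs0 : 0 ≤ s := hr0.trans hrs.le
  have ht0 : 0 < t := lt_of_le_of_lt hs0 hst
  have hps : HasFPowerSeriesOnBall g0 (cauchyPowerSeries g0 0 t) 0
      (ENNReal.ofNNReal ⟨t, ht0.le⟩) :=
    DifferentiableOn.hasFPowerSeriesOnBall (R := ⟨t, ht0.le⟩)
      (hd.mono (Metric.closedBall_subset_ball ht1)) ht0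
  have hun := hps.tendstoUniformlyOn (r' := ⟨s, hs0⟩) (by
    rw [ENNReal.coe_lt_coe]
    exact hst)
  rw [Metric.tendstoUniformlyOn_iff] at hun
  obtain ⟨n, hn⟩ := (hun ε hε).exists
  let q : ℂ[X] := ∑ k ∈ Finset.range n, C ((cauchyPowerSeries g0 0 t).coeff k) * X ^ k
  have hq : ∀ z, q.eval z = (cauchyPowerSeries g0 0 t).partialSum n z := by
    intro z
    simp only [q, FormalMultilinearSeries.partialSum, Polynomial.eval_finsetSum,
      Polynomial.eval_mul, Polynomial.eval_C, Polynomial.eval_pow, Polynomial.eval_X]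
    refine Finset.sum_congr rfl fun k _ => ?_
    rw [FormalMultilinearSeries.apply_eq_pow_smul_coeff, smul_eq_mul, mul_comm]
  refine ⟨(toDA q, 0), fun y hy => ?_⟩
  have h1 : y.1 ((toDA q, 0) : AA) = q.eval (LL y) := by
    conv_lhs => rw [eq_pt y.2]
    rfl
  rw [h1, hq, ← hg0]
  have h2 : LL y ∈ Metric.ball (0 : ℂ) ((⟨s, hs0⟩ : NNReal) : ℝ) := by
    have := hr y hy
    simp only [Metric.mem_ball, dist_zero_right]
    linarith
  have h3 := hn (LL y) h2
  rw [dist_eq_norm, zero_add] at h3
  exact h3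

/-- the product of the disc algebra and `C[0,1]` is locally Stein -/
theorem locallyStein_AA : IsLocallyStein AA :=
  ⟨frechet_AA, YY, open_YY, ⟨(RR 0 (by simp)).1, (RR 0 (by simp)).2⟩, OO, stein_YY, gelfand_hol,
    fun g hg K hK ε hε => dense_hol g hg K hK ε hε⟩

end Pool.Agent.Q193.LS
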